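import Pool.Agent.helper34.AC.Spec4

set_option autoImplicit false

open Filter Topology

namespace Pool.Agent.helper34.AC

theorem GDP_N0 {V : Type} (G : SimpleGraph V) (U : Finset V) : 0 ≤ N G U := by
  unfold N
  positivity

theorem GDP (hOMS : OMS_stmt) (hSAM : SAM_stmt) (hZER : ZER_stmt) (hTAI : TAI_stmt)
    (hOMF : OMF_stmt) : GDP_stmt := by
  classical
  intro d e he
  obtain ⟨o, hmono, ho0, ⟨M₁, hM₁⟩, hoN⟩ := hOMS
  obtain ⟨M₂, hM₂⟩ := hZER
  obtain ⟨M₃, hM₃⟩ := hTAI
  obtain ⟨-, -, -, hgb, hom, -⟩ := hOMF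
  obtain ⟨M₄, hM₄⟩ := (hom.eventually (eventually_ge_atTop (8 * (d + 1) / e))).exists_forall_of_atTop
  obtain ⟨M₅, hM₅⟩ := (hgb.eventually (eventually_ge_atTop (1024 / e + 1))).exists_forall_of_atTop
  refine ⟨max M₁ (max M₂ (max M₃ (max M₄ M₅))), ?_⟩
  intro m hm V _ G U A v hU hv hA hAd hlow
  have hm1 : M₁ ≤ m := (le_max_left _ _).trans hm
  have hm2 : M₂ ≤ m := (le_max_left _ _).trans ((le_max_right _ _).trans hm)
  have hm3 : M₃ ≤ m := (le_max_left _ _).trans ((le_max_right _ _).trans ((le_max_right _ _).trans hm))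
  have hm4 : M₄ ≤ m := (le_max_left _ _).trans ((le_max_right _ _).trans ((le_max_right _ _).trans
    ((le_max_right _ _).trans hm)))
  have hm5 : M₅ ≤ m := (le_max_right _ _).trans ((le_max_right _ _).trans ((le_max_right _ _).trans
    ((le_max_right _ _).trans hm)))
  have homm := hM₄ m hm4
  have hgbm := hM₅ m hm5
  have hOm : ∀ R : Finset V, Om G R o := by
    intro R S hS
    exact hoN V G S
  have hN := GDP_N0 G U
  have hg1 : 1 ≤ gb m := by
    have : 0 ≤ 1024 / e := by positivity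
    linarith
  have hom0 : 0 < om m := by
    have : 0 < 8 * ((d : ℝ) + 1) / e := by positivity
    linarith
  have hom_le : o m ≤ om m + 1 / gb m := by
    rw [hM₁ m hm1]
    have : 0 ≤ 1 / gb m := by positivity
    linarith
  have h1 : ∑ S ∈ (st G {v} (U.erase v)).filter (fun S => ¬ Disjoint S A ∨ m < 2 * S.card),
      N G (U.erase v \ S) ≤
      ∑ S ∈ (st G {v} (U.erase v)).filter (fun S => ¬ Disjoint S A), N G (U.erase v \ S) +
      ∑ S ∈ (st G {v} (U.erase v)).filter (fun S => m < 2 * S.card), N G (U.erase v \ S) := by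
    rw [Finset.filter_or, ← Finset.sum_union_inter]
    have : 0 ≤ ∑ S ∈ (st G {v} (U.erase v)).filter (fun S => ¬ Disjoint S A) ∩
        (st G {v} (U.erase v)).filter (fun S => m < 2 * S.card), N G (U.erase v \ S) :=
      Finset.sum_nonneg (fun S _ => GDP_N0 G _)
    linarith
  have h2 : ∑ S ∈ (st G {v} (U.erase v)).filter (fun S => ¬ Disjoint S A), N G (U.erase v \ S) ≤
      ∑ a ∈ A, ∑ S ∈ (st G {v} (U.erase v)).filter (fun S => a ∈ S), N G (U.erase v \ S) := by
    have h3 : ∀ a ∈ A, ∑ S ∈ (st G {v} (U.erase v)).filter (fun S => a ∈ S),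
        N G (U.erase v \ S) = ∑ S ∈ st G {v} (U.erase v),
          (if a ∈ S then N G (U.erase v \ S) else 0) := fun a _ => Finset.sum_filter _ _
    rw [Finset.sum_congr rfl h3, Finset.sum_comm, Finset.sum_filter]
    refine Finset.sum_le_sum fun S _ => ?_
    have h0 := GDP_N0 G (U.erase v \ S)
    have h00 : ∀ b : V, 0 ≤ (if b ∈ S then N G (U.erase v \ S) else 0) := by
      intro b
      by_cases hb : b ∈ S
      · rw [if_pos hb]; exact h0
      · rw [if_neg hb]
    by_cases hd : Disjoint S A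
    · rw [if_neg (not_not.2 hd)]
      exact Finset.sum_nonneg fun b _ => h00 b
    · rw [if_pos hd]
      rw [Finset.not_disjoint_iff] at hd
      obtain ⟨a, haS, haA⟩ := hd
      calc N G (U.erase v \ S) = if a ∈ S then N G (U.erase v \ S) else 0 := by rw [if_pos haS]
        _ ≤ _ := Finset.single_le_sum (f := fun a => if a ∈ S then N G (U.erase v \ S) else 0)
            (fun b _ => h00 b) haA
  have h4 : ∀ a ∈ A, ∑ S ∈ (st G {v} (U.erase v)).filter (fun S => a ∈ S),
      N G (U.erase v \ S) ≤ 4 / om m * N G U := by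
    intro a ha
    have haU : a ∈ U.erase v := hA ha
    rw [Finset.mem_erase] at haU
    refine ((hSAM V G U v a hv haU.2 (Ne.symm haU.1)).2).trans ?_
    exact hM₂ m hm2 V G U a o hU haU.2 hmono (hOm _) hom_le (hlow a haU.2)
  have h5 : ∑ a ∈ A, ∑ S ∈ (st G {v} (U.erase v)).filter (fun S => a ∈ S), N G (U.erase v \ S) ≤
      d * (4 / om m * N G U) := by
    refine (Finset.sum_le_card_nsmul A _ _ h4).trans ?_
    rw [nsmul_eq_mul]
    refine mul_le_mul_of_nonneg_right (by exact_mod_cast hAd) ?_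
    positivity
  have h6 := hM₃ m hm3 V G U v o hU hv hmono (hOm _) hom_le
  have h7 : (d : ℝ) * (4 / om m) ≤ e / 2 := by
    have h8 : 8 * ((d : ℝ) + 1) ≤ om m * e := (div_le_iff₀ he).1 homm
    rw [← mul_div_assoc, div_le_iff₀ hom0]
    nlinarith
  have h9 : 512 / gb m ^ 3 ≤ e / 2 := by
    have h10 : 1024 / e ≤ gb m := by linarith
    have h11 : 1024 ≤ gb m * e := (div_le_iff₀ he).1 h10
    have h12 : gb m ≤ gb m ^ 3 := by nlinarith [mul_nonneg (sub_nonneg.2 hg1) (sub_nonneg.2 hg1)]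
    rw [div_le_iff₀ (by positivity)]
    nlinarith
  calc _ ≤ (d : ℝ) * (4 / om m * N G U) + 512 / gb m ^ 3 * N G U := by linarith
    _ = ((d : ℝ) * (4 / om m)) * N G U + 512 / gb m ^ 3 * N G U := by ring
    _ ≤ e / 2 * N G U + e / 2 * N G U := by gcongr
    _ = e * N G U := by ring

end Pool.Agent.helper34.AC
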